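import Mathlib
import Pool.Agent.Helper11.Can.Defs
import Pool.Agent.Helper10.GIT.Valuation
import Pool.Agent.Helper52.G4.P1

/-! # CAN-L5: weights from `Unbal` -/

open Finset

namespace Pool.Agent.Helper11.Can

open Pool.Agent.Helper10.GIT Pool.Agent.Helper11.GIT

variable {P : ℕ} {d : Fin P → ℕ}

namespace L5

/-- the vector of multiplicities of a word -/
def vec (w : Words d) : Let d → ℝ := fun l => (cnt w l : ℝ)

/-- the indicator function of a class -/
def ind (c : Fin P) : Let d → ℝ := fun l => if l.1 = c then 1 else 0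

lemma sum_lt (w : Words d) (g : Let d → ℝ) :
    ∑ i, g (lt w.2 i) = ∑ l, vec w l * g l := by
  classical
  rw [← Finset.sum_fiberwise_of_maps_to (s := univ) (t := univ) (g := fun i => lt w.2 i)
    (fun i _ => mem_univ _)]
  refine sum_congr rfl fun l _ => ?_
  rw [Finset.sum_congr rfl (g := fun _ => g l)
    (fun i hi => by rw [(Finset.mem_filter.mp hi).2])]
  rw [Finset.sum_const, nsmul_eq_mul, vec, cnt]

lemma f_eq (f : (Let d → ℝ) →ₗ[ℝ] ℝ) (x : Let d → ℝ) :
    f x = ∑ l, x l * f (Pi.single l 1) := by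
  classical
  conv_lhs => rw [← Finset.univ_sum_single x, map_sum]
  refine sum_congr rfl fun l _ => ?_
  have : (Pi.single l (x l) : Let d → ℝ) = x l • Pi.single l 1 := by
    rw [← Pi.single_smul, smul_eq_mul, mul_one]
  rw [this, map_smul, smul_eq_mul]

/-- clearing denominators -/
lemma clear {ι : Type*} [Fintype ι] (x : ι → ℚ) (hx : ∀ i, 0 ≤ x i) :
    ∃ D : ℕ, 0 < D ∧ ∃ k : ι → ℕ, ∀ i, (D : ℚ) * x i = k i := by
  classical
  refine ⟨∏ i, (x i).den, prod_pos fun i _ => (x i).den_pos, ?_⟩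
  have key : ∀ i, ∃ k : ℕ, ((∏ i, (x i).den : ℕ) : ℚ) * x i = k := by
    intro i
    obtain ⟨d', hd'⟩ : (x i).den ∣ ∏ i, (x i).den := dvd_prod_of_mem _ (mem_univ i)
    rw [hd']
    refine ⟨d' * (x i).num.toNat, ?_⟩
    have h1 : ((x i).num.toNat : ℚ) = (x i).num := by
      have : ((x i).num.toNat : ℤ) = (x i).num := Int.toNat_of_nonneg (Rat.num_nonneg.mpr (hx i))
      exact_mod_cast this
    push_cast
    rw [h1]
    have h2 : ((x i).den : ℚ) * x i = (x i).num := Rat.den_mul_eq_num (x i)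
    calc ((x i).den : ℚ) * d' * x i = d' * ((x i).den * x i) := by ring
      _ = _ := by rw [h2]
  choose k hk using key
  exact ⟨k, hk⟩

/-- the alternative of Farkas' lemma which is excluded by `Unbal` -/
lemma bad {SA SN : Set (Words d)} (hfin : SA.Finite) (hU : Unbal SA SN) {v : Words d}
    (hv : v ∈ SN) (hvA : v ∈ SA) (b : Words d → ℝ) (hb : ∀ u ∈ hfin.toFinset, 0 ≤ b u)
    (m : Fin P → ℝ)
    (h : ∀ l : Let d, (cnt v l : ℝ) + ∑ u ∈ hfin.toFinset, b u * (cnt u l : ℝ) = m l.1) :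
    False := by
  classical
  set s := hfin.toFinset with hs
  let S : Type := {u : Words d // u ∈ s}
  obtain ⟨φ, hφ⟩ := exists_rat_form (ι := Option S) (fun o => o.elim 1 fun u => b u.1)
  have hφ1 : 0 < φ 1 := hφ none one_pos
  have hφb : ∀ u : S, 0 ≤ φ (b u.1) := by
    intro u
    rcases (hb u.1 u.2).eq_or_lt with h0 | h0
    · rw [← h0, map_zero]
    · exact (hφ (some u) h0).le
  obtain ⟨D, hD, k, hk⟩ := clear (ι := Option S) (fun o => o.elim (φ 1) fun u => φ (b u.1))
    (fun o => by cases o with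
      | none => exact hφ1.le
      | some u => exact hφb u)
  have hk0 : (D : ℚ) * φ 1 = k none := hk none
  have hku : ∀ u : S, (D : ℚ) * φ (b u.1) = k (some u) := fun u => hk (some u)
  have hkpos : 0 < k none := by
    have h1 : (0 : ℚ) < k none := by
      rw [← hk0]
      have : (0 : ℚ) < D := by exact_mod_cast hD
      positivity
    exact_mod_cast h1
  have hnat : ∀ (n : ℕ) (y : ℝ), φ (y * (n : ℝ)) = n * φ y := by
    intro n y
    have : y * (n : ℝ) = (n : ℚ) • y := by
      rw [Rat.smul_def]; push_cast; ring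
    rw [this, map_smul, smul_eq_mul]
  have hsum : ∀ l : Let d, (k none : ℚ) * (cnt v l : ℚ) +
      ∑ u : S, (k (some u) : ℚ) * (cnt u.1 l : ℚ) = D * φ (m l.1) := by
    intro l
    have h1 := congrArg φ (h l)
    rw [map_add, map_sum] at h1
    have h2 : φ (cnt v l : ℝ) = (cnt v l : ℚ) * φ 1 := by
      rw [← hnat, one_mul]
    have h3 : ∑ u ∈ s, φ (b u * (cnt u l : ℝ)) = ∑ u : S, (cnt u.1 l : ℚ) * φ (b u.1) := by
      rw [← Finset.sum_coe_sort s]
      exact sum_congr rfl fun u _ => hnat _ _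
    rw [h2, h3] at h1
    rw [← h1, mul_add, Finset.mul_sum]
    congr 1
    · rw [← hk0]; ring
    · refine sum_congr rfl fun u _ => ?_
      rw [← hku]; ring
  apply hU
  refine ⟨Fin (k none) ⊕ (Σ u : S, Fin (k (some u))), inferInstance,
    Sum.elim (fun _ => v) (fun p => p.1.1), fun c => ⌊(D : ℚ) * φ (m c)⌋₊, ?_, ?_, ?_⟩
  · rintro (r | ⟨u, r⟩)
    · exact hvA
    · exact hfin.mem_toFinset.mp u.2
  · exact ⟨Sum.inl ⟨0, hkpos⟩, hv⟩
  · intro l
    have h1 : ((∑ r : Fin (k none) ⊕ (Σ u : S, Fin (k (some u))),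
        cnt (Sum.elim (fun _ => v) (fun p => p.1.1) r) l : ℕ) : ℚ) = D * φ (m l.1) := by
      rw [← hsum l, Fintype.sum_sum_type]
      simp only [Sum.elim_inl, Sum.elim_inr, Finset.sum_const, Finset.card_univ, Fintype.card_fin,
        smul_eq_mul, Fintype.sum_sigma]
      push_cast
      rfl
    change _ = ⌊(D : ℚ) * φ (m l.1)⌋₊
    rw [← h1, Nat.floor_natCast]

end L5

open L5 in
/-- CAN-L5: weights from `Unbal` -/
theorem exists_weight {SA SN : Set (Words d)} (hfin : SA.Finite) (hNA : SN ⊆ SA)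
    (hU : Unbal SA SN) :
    ∃ γ : WSpace d, (∀ c, ∑ a, γ ⟨c, a⟩ = 0) ∧ (∀ w ∈ SA, 0 ≤ wgt γ w) ∧
      ∀ w ∈ SN, 1 ≤ wgt γ w := by
  classical
  -- the functional attached to a word of `SN`
  have hf : ∀ v ∈ SN, ∃ f : (Let d → ℝ) →ₗ[ℝ] ℝ, (∀ u ∈ SA, 0 ≤ f (vec u)) ∧
      (∀ c, f (ind c) = 0) ∧ 0 < f (vec v) := by
    intro v hv
    rcases Pool.Agent.Helper52.G4.farkas (hfin.toFinset.disjSum (univ : Finset (Fin P ⊕ Fin P)))
      (Sum.elim (fun u : Words d => vec u) (Sum.elim (fun c => ind c) (fun c => -ind c)))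
      (-vec v) with ⟨b, hb, hx⟩ | ⟨f, hf, hfx⟩
    · exfalso
      refine bad hfin hU hv (hNA hv) (fun u => b (Sum.inl u)) (fun u hu => ?_)
        (fun c => b (Sum.inr (Sum.inr c)) - b (Sum.inr (Sum.inl c))) (fun l => ?_)
      · exact hb _ (Finset.inl_mem_disjSum.mpr hu)
      · have h1 := congrFun hx l
        rw [Finset.sum_disjSum] at h1
        simp only [Sum.elim_inl, Sum.elim_inr, Fintype.sum_sum_type, Pi.neg_apply, Pi.add_apply,
          Finset.sum_apply, Pi.smul_apply, smul_eq_mul, vec, ind, mul_ite, mul_one, mul_zero,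
          mul_neg, Finset.sum_neg_distrib, Finset.sum_ite_eq, Finset.mem_univ, if_true] at h1
        linarith
    · refine ⟨f, fun u hu => ?_, fun c => ?_, ?_⟩
      · exact hf (Sum.inl u) (Finset.inl_mem_disjSum.mpr (hfin.mem_toFinset.mpr hu))
      · have h1 := hf (Sum.inr (Sum.inl c)) (Finset.inr_mem_disjSum.mpr (mem_univ _))
        have h2 := hf (Sum.inr (Sum.inr c)) (Finset.inr_mem_disjSum.mpr (mem_univ _))
        simp only [Sum.elim_inr, Sum.elim_inl, map_neg] at h1 h2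
        linarith
      · rw [map_neg] at hfx
        linarith
  choose! f hfA hfc hfv using hf
  have hfinN : SN.Finite := hfin.subset hNA
  let F : (Let d → ℝ) →ₗ[ℝ] ℝ := ∑ v ∈ hfinN.toFinset, f v
  have hF : ∀ x, F x = ∑ v ∈ hfinN.toFinset, f v x := fun x => LinearMap.sum_apply _ _ _
  have hFA : ∀ u ∈ SA, 0 ≤ F (vec u) := by
    intro u hu
    rw [hF]
    exact Finset.sum_nonneg fun v hv => hfA v (hfinN.mem_toFinset.mp hv) u hu
  have hFc : ∀ c, F (ind c) = 0 := by
    intro c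
    rw [hF]
    exact Finset.sum_eq_zero fun v hv => hfc v (hfinN.mem_toFinset.mp hv) c
  have hFN : ∀ v ∈ SN, 0 < F (vec v) := by
    intro v hv
    rw [hF]
    exact lt_of_lt_of_le (hfv v hv) (Finset.single_le_sum
      (f := fun v' => f v' (vec v))
      (fun v' hv' => hfA v' (hfinN.mem_toFinset.mp hv') v (hNA hv)) (hfinN.mem_toFinset.mpr hv))
  let M : ℝ := ∑ v ∈ hfinN.toFinset, (F (vec v))⁻¹
  have hM0 : 0 ≤ M := Finset.sum_nonneg fun v hv =>
    inv_nonneg.mpr (hFN v (hfinN.mem_toFinset.mp hv)).le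
  have hM1 : ∀ v ∈ SN, 1 ≤ M * F (vec v) := by
    intro v hv
    have h1 : (F (vec v))⁻¹ ≤ M := Finset.single_le_sum (f := fun v => (F (vec v))⁻¹)
      (fun v' hv' => inv_nonneg.mpr (hFN v' (hfinN.mem_toFinset.mp hv')).le)
      (hfinN.mem_toFinset.mpr hv)
    calc (1 : ℝ) = (F (vec v))⁻¹ * F (vec v) := (inv_mul_cancel₀ (hFN v hv).ne').symm
      _ ≤ _ := mul_le_mul_of_nonneg_right h1 (hFN v hv).le
  refine ⟨WithLp.toLp 2 fun l => M * F (Pi.single l 1), fun c => ?_, fun w hw => ?_,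
    fun w hw => ?_⟩
  · have h1 := hFc c
    rw [f_eq] at h1
    have h2 : ∑ l : Let d, ind c l * F (Pi.single l 1) =
        ∑ a : Fin (d c), F (Pi.single (⟨c, a⟩ : Let d) 1) := by
      rw [Fintype.sum_sigma]
      rw [Finset.sum_eq_single c]
      · exact sum_congr rfl fun a _ => by simp [ind]
      · intro c' _ hc'
        exact sum_eq_zero fun a _ => by simp [ind, hc']
      · intro hc; exact absurd (mem_univ c) hc
    rw [h2] at h1
    change ∑ a, M * F (Pi.single (⟨c, a⟩ : Let d) 1) = 0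
    rw [← Finset.mul_sum, h1, mul_zero]
  · have h1 : wgt (WithLp.toLp 2 fun l => M * F (Pi.single l 1)) w = M * F (vec w) := by
      refine (sum_lt w (fun l : Let d => M * F (Pi.single l 1))).trans ?_
      rw [f_eq, Finset.mul_sum]
      exact sum_congr rfl fun l _ => by ring
    rw [h1]
    exact mul_nonneg hM0 (hFA w hw)
  · have h1 : wgt (WithLp.toLp 2 fun l => M * F (Pi.single l 1)) w = M * F (vec w) := by
      refine (sum_lt w (fun l : Let d => M * F (Pi.single l 1))).trans ?_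
      rw [f_eq, Finset.mul_sum]
      exact sum_congr rfl fun l _ => by ring
    rw [h1]
    exact hM1 w hw

end Pool.Agent.Helper11.Can
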